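import Mathlib

/-!
# Separable digit sets and sets without nontrivial solutions of a linear equation

Let `∑ a_j x_j = 0` be a linear equation with `∑ a_j = 0`.  A digit set `d : Fin k → ℤ` modulo `m`
with a potential `f : Fin k → ℤ` is *separable* if every solution of the equation modulo `m` in the
digits has `∑ a_j f ≥ 0`, with equality only for constant solutions.
Vectors of base-`m` expansions with fixed total potential on every level then contain only
trivial solutions.
-/

namespace Pool.Agent.LinEqSep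

open Finset

/-- The separability condition. -/
def Sep {r k : ℕ} (a : Fin r → ℤ) (m : ℤ) (d f : Fin k → ℤ) : Prop :=
  ∀ σ : Fin r → Fin k, m ∣ ∑ j, a j * d (σ j) →
    0 ≤ ∑ j, a j * f (σ j) ∧ ((∑ j, a j * f (σ j)) = 0 → ∀ j j', σ j = σ j')

/-- If the partial sum below `t` vanishes termwise then `B` divides the `t`-th digit. -/
lemma dvd_digit {L : ℕ} {B : ℤ} (hB : B ≠ 0) (e : Fin L → ℤ)
    (h : ∑ s : Fin L, B ^ (s : ℕ) * e s = 0) (t : Fin L) (hlow : ∀ s < t, e s = 0) : B ∣ e t := by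
  have h1 : B ^ ((t : ℕ) + 1) ∣ ∑ s ∈ (univ : Finset (Fin L)).erase t, B ^ (s : ℕ) * e s := by
    refine Finset.dvd_sum ?_
    intro s hs
    have hne : s ≠ t := (Finset.mem_erase.mp hs).1
    rcases lt_or_gt_of_ne hne with hlt | hgt
    · rw [hlow s hlt]; simp
    · have : (t : ℕ) + 1 ≤ (s : ℕ) := hgt
      exact Dvd.dvd.mul_right (pow_dvd_pow B this) _
  rw [← Finset.add_sum_erase _ _ (Finset.mem_univ t)] at h
  have h2 : B ^ ((t : ℕ) + 1) ∣ B ^ (t : ℕ) * e t := by
    have : B ^ (t : ℕ) * e t = - ∑ s ∈ (univ : Finset (Fin L)).erase t, B ^ (s : ℕ) * e s := by linarith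
    rw [this]
    exact (dvd_neg).mpr h1
  rw [pow_succ] at h2
  exact (mul_dvd_mul_iff_left (pow_ne_zero _ hB)).mp h2

/-- Uniqueness of balanced expansions. -/
lemma base_unique {n : ℕ} {B : ℤ} (u : Fin n → ℤ) (hu : ∀ i, |u i| < B)
    (h : ∑ i : Fin n, B ^ (i : ℕ) * u i = 0) : ∀ i, u i = 0 := by
  intro i
  have hB : 0 < B := lt_of_le_of_lt (abs_nonneg _) (hu i)
  induction i using WellFoundedLT.induction with
  | ind t ih =>
    have hd : B ∣ u t := dvd_digit hB.ne' u h t ih
    exact Int.eq_zero_of_abs_lt_dvd hd (hu t)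

/-- The value of the `i`-th coordinate. -/
def coord {k L n : ℕ} (m : ℤ) (d : Fin k → ℤ) (w : Fin L → Fin n → Fin k) (i : Fin n) : ℤ :=
  ∑ t : Fin L, m ^ (t : ℕ) * d (w t i)

/-- The integer attached to a word. -/
def val {k L n : ℕ} (m B : ℤ) (d : Fin k → ℤ) (w : Fin L → Fin n → Fin k) : ℤ :=
  ∑ i : Fin n, B ^ (i : ℕ) * coord m d w i

/-- If all coordinates satisfy the equation and the potentials are fixed, the words agree. -/
lemma words_eq {r k L n : ℕ} {a : Fin r → ℤ} (ha : ∑ j, a j = 0) {m : ℤ} (hm : m ≠ 0)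
    {d f : Fin k → ℤ} (hsep : Sep a m d f) {c : ℤ} (w : Fin r → Fin L → Fin n → Fin k)
    (hc : ∀ j t, ∑ i, f (w j t i) = c)
    (h : ∀ i, ∑ j, a j * coord m d (w j) i = 0) : ∀ t i j j', w j t i = w j' t i := by
  intro t
  induction t using WellFoundedLT.induction with
  | ind t ih =>
    -- the digit sums
    have hzero : ∀ i : Fin n, ∀ s < t, ∑ j, a j * d (w j s i) = 0 := by
      intro i s hs
      rcases Nat.eq_zero_or_pos r with hr | hr
      · subst hr; simp
      · have hall : ∀ j, w j s i = w ⟨0, hr⟩ s i := fun j => ih s hs i j _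
        have : ∑ j, a j * d (w j s i) = (∑ j, a j) * d (w ⟨0, hr⟩ s i) := by
          rw [Finset.sum_mul]
          exact Finset.sum_congr rfl (fun j _ => by rw [hall j])
        rw [this, ha, zero_mul]
    have hdvd : ∀ i : Fin n, m ∣ ∑ j, a j * d (w j t i) := by
      intro i
      refine dvd_digit hm (fun s => ∑ j, a j * d (w j s i)) ?_ t (hzero i)
      have := h i
      simp only [coord] at this
      rw [← this]
      simp only [Finset.mul_sum]
      rw [Finset.sum_comm]
      refine Finset.sum_congr rfl (fun j _ => Finset.sum_congr rfl (fun s _ => by ring))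
    have hcost : ∀ i : Fin n, 0 ≤ ∑ j, a j * f (w j t i) := fun i =>
      (hsep (fun j => w j t i) (hdvd i)).1
    have htot : ∑ i, ∑ j, a j * f (w j t i) = 0 := by
      rw [Finset.sum_comm]
      have : ∀ j, ∑ i, a j * f (w j t i) = a j * c := by
        intro j
        rw [← Finset.mul_sum, hc j t]
      rw [Finset.sum_congr rfl (fun j _ => this j), ← Finset.sum_mul, ha, zero_mul]
    intro i j j'
    have hi : ∑ j, a j * f (w j t i) = 0 :=
      (Finset.sum_eq_zero_iff_of_nonneg (fun i _ => hcost i)).mp htot i (Finset.mem_univ i)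
    exact (hsep (fun j => w j t i) (hdvd i)).2 hi j j'

lemma coord_nonneg {k L n : ℕ} {m : ℤ} (hm : 0 < m) {d : Fin k → ℤ}
    (hd : ∀ x, 0 ≤ d x ∧ d x < m) (w : Fin L → Fin n → Fin k) (i : Fin n) :
    0 ≤ coord m d w i :=
  Finset.sum_nonneg (fun t _ => mul_nonneg (pow_nonneg hm.le _) (hd _).1)

lemma coord_le {k L n : ℕ} {m : ℤ} (hm : 0 < m) {d : Fin k → ℤ}
    (hd : ∀ x, 0 ≤ d x ∧ d x < m) (w : Fin L → Fin n → Fin k) (i : Fin n) :
    coord m d w i ≤ L * m ^ L := by
  have : ∀ t : Fin L, m ^ (t : ℕ) * d (w t i) ≤ m ^ L := by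
    intro t
    calc m ^ (t : ℕ) * d (w t i) ≤ m ^ (t : ℕ) * m :=
          mul_le_mul_of_nonneg_left (hd _).2.le (pow_nonneg hm.le _)
      _ = m ^ ((t : ℕ) + 1) := (pow_succ _ _).symm
      _ ≤ m ^ L := pow_le_pow_right₀ (by linarith [hm] : (1 : ℤ) ≤ m) t.2
  calc coord m d w i ≤ ∑ _t : Fin L, m ^ L := Finset.sum_le_sum (fun t _ => this t)
    _ = L * m ^ L := by simp

/-- The base used for the coordinates. -/
def base {r : ℕ} (a : Fin r → ℤ) (m : ℤ) (L : ℕ) : ℤ := (∑ j, |a j|) * (L * m ^ L) + L * m ^ L + 1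

lemma sumabs_nonneg {r : ℕ} (a : Fin r → ℤ) : 0 ≤ ∑ j, |a j| :=
  Finset.sum_nonneg (fun j _ => abs_nonneg (a j))

/-- Main combinatorial lemma: the values of fixed-type words have only trivial solutions. -/
lemma val_words_eq {r k L n : ℕ} {a : Fin r → ℤ} (ha : ∑ j, a j = 0) {m : ℤ} (hm : 0 < m)
    {d f : Fin k → ℤ} (hd : ∀ x, 0 ≤ d x ∧ d x < m) (hsep : Sep a m d f) {c : ℤ}
    (w : Fin r → Fin L → Fin n → Fin k)
    (hc : ∀ j t, ∑ i, f (w j t i) = c)
    (h : ∑ j, a j * val m (base a m L) d (w j) = 0) : ∀ j j', w j = w j' := by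
  have hcoord : ∀ i, ∑ j, a j * coord m d (w j) i = 0 := by
    refine base_unique (B := base a m L) (fun i => ∑ j, a j * coord m d (w j) i) ?_ ?_
    · intro i
      have h1 : |∑ j, a j * coord m d (w j) i| ≤ ∑ j, |a j| * (L * m ^ L) := by
        refine (Finset.abs_sum_le_sum_abs _ _).trans (Finset.sum_le_sum (fun j _ => ?_))
        rw [abs_mul, abs_of_nonneg (coord_nonneg hm hd _ _)]
        exact mul_le_mul_of_nonneg_left (coord_le hm hd _ _) (abs_nonneg _)
      rw [← Finset.sum_mul] at h1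
      have h2 : (0 : ℤ) ≤ L * m ^ L := by positivity
      unfold base
      linarith
    · rw [← h]
      simp only [val, Finset.mul_sum]
      rw [Finset.sum_comm]
      refine Finset.sum_congr rfl (fun j _ => Finset.sum_congr rfl (fun s _ => by ring))
  have := words_eq ha hm.ne' hsep w hc hcoord
  intro j j'
  funext t i
  exact this t i j j'

lemma base_pos {r : ℕ} (a : Fin r → ℤ) {m : ℤ} (hm : 0 < m) (L : ℕ) : 0 < base a m L := by
  have h2 : (0 : ℤ) ≤ L * m ^ L := by positivity
  have h3 := mul_nonneg (sumabs_nonneg a) h2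
  unfold base
  linarith

lemma val_nonneg {r k L n : ℕ} (a : Fin r → ℤ) {m : ℤ} (hm : 0 < m) {d : Fin k → ℤ}
    (hd : ∀ x, 0 ≤ d x ∧ d x < m) (w : Fin L → Fin n → Fin k) :
    0 ≤ val m (base a m L) d w :=
  Finset.sum_nonneg (fun i _ => mul_nonneg (pow_nonneg (base_pos a hm L).le _)
    (coord_nonneg hm hd _ _))

lemma val_lt {r k L n : ℕ} (a : Fin r → ℤ) {m : ℤ} (hm : 0 < m) {d : Fin k → ℤ}
    (hd : ∀ x, 0 ≤ d x ∧ d x < m) (w : Fin L → Fin n → Fin k) :
    val m (base a m L) d w < base a m L ^ n := by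
  set B := base a m L with hB
  have hBpos : 0 < B := base_pos a hm L
  have hle : ∀ i, coord m d w i ≤ B - 1 := by
    intro i
    have h1 := coord_le hm hd w i
    have h2 : (0 : ℤ) ≤ L * m ^ L := by positivity
    have h3 := mul_nonneg (sumabs_nonneg a) h2
    rw [hB]; unfold base
    linarith
  have h1 : val m B d w ≤ ∑ i : Fin n, B ^ (i : ℕ) * (B - 1) :=
    Finset.sum_le_sum (fun i _ => mul_le_mul_of_nonneg_left (hle i) (pow_nonneg hBpos.le _))
  have h2 : ∑ i : Fin n, B ^ (i : ℕ) * (B - 1) = B ^ n - 1 := by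
    rw [← Finset.sum_mul, Fin.sum_univ_eq_sum_range (fun i => B ^ i) n, geom_sum_mul]
  linarith

/-- A set of naturals has only trivial solutions. -/
def Free {r : ℕ} (a : Fin r → ℤ) (A : Finset ℕ) : Prop :=
  ∀ x : Fin r → ℕ, (∀ j, x j ∈ A) → ∑ j, a j * (x j : ℤ) = 0 → ∀ j j', x j = x j'

/-- Finite form of the construction. -/
theorem exists_free {r k : ℕ} (hr : 2 ≤ r) {a : Fin r → ℤ} (ha : ∑ j, a j = 0)
    {m : ℤ} (hm : 0 < m) {d f : Fin k → ℤ} (hd : ∀ x, 0 ≤ d x ∧ d x < m)
    (hsep : Sep a m d f) {M : ℕ} (hM : ∀ x, |f x| ≤ M) (L n : ℕ) :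
    ∃ A : Finset ℕ, A ⊆ Finset.Icc 1 ((base a m L).toNat ^ n) ∧ Free a A ∧
      k ^ (n * L) ≤ A.card * (2 * M * n + 1) ^ L := by
  classical
  -- pigeonhole
  have hpig : ∃ c : ℤ, k ^ n ≤ (univ.filter (fun v : Fin n → Fin k => ∑ i, f (v i) = c)).card
      * (2 * M * n + 1) := by
    have hmaps : ∀ v ∈ (univ : Finset (Fin n → Fin k)),
        ∑ i, f (v i) ∈ Finset.Icc (-(M * n : ℤ)) (M * n : ℤ) := by
      intro v _
      have : |∑ i, f (v i)| ≤ M * n := by
        refine (Finset.abs_sum_le_sum_abs _ _).trans ?_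
        calc ∑ i : Fin n, |f (v i)| ≤ ∑ _i : Fin n, (M : ℤ) :=
              Finset.sum_le_sum (fun i _ => hM _)
          _ = M * n := by simp [mul_comm]
      rw [Finset.mem_Icc]
      exact abs_le.mp this
    have hcardI : (Finset.Icc (-(M * n : ℤ)) (M * n : ℤ)).card = 2 * M * n + 1 := by
      rw [Int.card_Icc]
      have : (M * n : ℤ) + 1 - (-(M * n : ℤ)) = ((2 * M * n + 1 : ℕ) : ℤ) := by
        push_cast; ring
      rw [this, Int.toNat_natCast]
    by_contra hcon
    push Not at hcon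
    have hsum := Finset.card_eq_sum_card_fiberwise hmaps
    have hle : (2 * M * n + 1) * (univ : Finset (Fin n → Fin k)).card
        < (2 * M * n + 1) * k ^ n := by
      rw [hsum, Finset.mul_sum]
      have hne : (Finset.Icc (-(M * n : ℤ)) (M * n : ℤ)).Nonempty := by
        rw [← Finset.card_pos, hcardI]; omega
      calc ∑ b ∈ Finset.Icc (-(M * n : ℤ)) (M * n : ℤ), (2 * M * n + 1) *
              (univ.filter (fun v : Fin n → Fin k => ∑ i, f (v i) = b)).card
          < ∑ _b ∈ Finset.Icc (-(M * n : ℤ)) (M * n : ℤ), k ^ n := by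
            refine Finset.sum_lt_sum_of_nonempty hne (fun b _ => ?_)
            have := hcon b
            rw [mul_comm]
            exact this
        _ = (2 * M * n + 1) * k ^ n := by
            rw [Finset.sum_const, hcardI, smul_eq_mul]
    have hcard : (univ : Finset (Fin n → Fin k)).card = k ^ n := by
      simp
    rw [hcard] at hle
    exact lt_irrefl _ hle
  obtain ⟨c, hc⟩ := hpig
  set T : Finset (Fin n → Fin k) := univ.filter (fun v : Fin n → Fin k => ∑ i, f (v i) = c)
    with hT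
  set W : Finset (Fin L → Fin n → Fin k) := Fintype.piFinset (fun _ => T) with hW
  have hWmem : ∀ w ∈ W, ∀ t, ∑ i, f (w t i) = c := by
    intro w hw t
    have := Fintype.mem_piFinset.mp hw t
    exact (Finset.mem_filter.mp this).2
  set B := base a m L with hB
  have hBpos : 0 < B := base_pos a hm L
  let X : (Fin L → Fin n → Fin k) → ℕ := fun w => (val m B d w).toNat + 1
  have hX : ∀ w, ((X w : ℕ) : ℤ) = val m B d w + 1 := by
    intro w
    simp only [X]
    push_cast
    rw [Int.toNat_of_nonneg (val_nonneg a hm hd w)]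
  -- only trivial solutions
  have hfree : ∀ w : Fin r → Fin L → Fin n → Fin k, (∀ j, w j ∈ W) →
      ∑ j, a j * ((X (w j) : ℕ) : ℤ) = 0 → ∀ j j', w j = w j' := by
    intro w hw hsol
    refine val_words_eq ha hm hd hsep w (fun j t => hWmem _ (hw j) t) ?_
    have : ∑ j, a j * ((X (w j) : ℕ) : ℤ) = ∑ j, a j * val m B d (w j) := by
      simp only [hX, mul_add, mul_one, Finset.sum_add_distrib, ha, add_zero]
    rw [← this, hsol]
  have hinj : Set.InjOn X (W : Set (Fin L → Fin n → Fin k)) := by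
    intro w hw w' hw' heq
    have h0 : (0 : ℕ) < r := by omega
    have h1 : (1 : ℕ) < r := by omega
    have := hfree (fun j => if j = ⟨0, h0⟩ then w else w') ?_ ?_ ⟨0, h0⟩ ⟨1, h1⟩
    · simpa using this
    · intro j
      by_cases hj : j = ⟨0, h0⟩
      · simp only [hj, if_true]; exact hw
      · simp only [hj, if_false]; exact hw'
    · have : ∀ j : Fin r, ((X (if j = ⟨0, h0⟩ then w else w') : ℕ) : ℤ) = (X w : ℤ) := by
        intro j
        by_cases hj : j = ⟨0, h0⟩
        · simp [hj]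
        · simp only [hj, if_false]; rw [heq]
      simp only [this]
      rw [← Finset.sum_mul, ha, zero_mul]
  refine ⟨W.image X, ?_, ?_, ?_⟩
  · intro x hx
    obtain ⟨w, _, rfl⟩ := Finset.mem_image.mp hx
    rw [Finset.mem_Icc]
    refine ⟨by simp [X], ?_⟩
    have h1 := val_lt a hm hd w
    have h2 : ((X w : ℕ) : ℤ) ≤ (((B.toNat) ^ n : ℕ) : ℤ) := by
      rw [hX]
      push_cast
      rw [Int.toNat_of_nonneg hBpos.le]
      rw [← hB] at h1
      linarith
    exact_mod_cast h2
  · intro x hx hsol j j'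
    choose w hw hwx using fun j => Finset.mem_image.mp (hx j)
    have := hfree w hw (by simpa only [hwx] using hsol) j j'
    rw [← hwx j, ← hwx j', this]
  · rw [Finset.card_image_of_injOn hinj, hW, Fintype.card_piFinset]
    simp only [Finset.prod_const, Finset.card_univ, Fintype.card_fin]
    calc k ^ (n * L) = (k ^ n) ^ L := pow_mul _ _ _
      _ ≤ (T.card * (2 * M * n + 1)) ^ L := Nat.pow_le_pow_left hc L
      _ = T.card ^ L * (2 * M * n + 1) ^ L := mul_pow _ _ _

end Pool.Agent.LinEqSep
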