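import Mathlib
import Pool.Agent.Lib.LinEqSep.Core

/-!
# Asymptotic form of the separable digit construction
-/

namespace Pool.Agent.LinEqSep

open Finset Filter

/-- `C * x ^ p ≤ θ ^ x` for all large naturals `x`, when `θ > 1`. -/
lemma eventually_poly_le_pow (C : ℝ) (p : ℕ) {θ : ℝ} (hθ : 1 < θ) :
    ∃ n0 : ℕ, ∀ n : ℕ, n0 ≤ n → C * (n : ℝ) ^ p ≤ θ ^ n := by
  have h1 := (tendsto_pow_const_div_const_pow_of_one_lt p hθ).const_mul C
  rw [mul_zero] at h1
  have h2 := h1.eventually (gt_mem_nhds (show (0 : ℝ) < 1 by norm_num))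
  obtain ⟨n0, hn0⟩ := eventually_atTop.mp h2
  refine ⟨n0, fun n hn => ?_⟩
  have h3 := hn0 n hn
  have hpos : 0 < θ ^ n := pow_pos (by linarith) n
  rw [← mul_div_assoc, div_lt_one hpos] at h3
  exact h3.le

/-- **Separable digit sets give large free sets.** -/
theorem exists_free_large {r k : ℕ} (hr : 2 ≤ r) {a : Fin r → ℤ} (ha : ∑ j, a j = 0)
    {m : ℕ} (hm : 2 ≤ m) {d f : Fin k → ℤ} (hd : ∀ x, 0 ≤ d x ∧ d x < m)
    (hsep : Sep a m d f) {c : ℝ} (hc0 : 0 ≤ c) (hc : c * Real.log m < Real.log k) :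
    ∃ N0 : ℕ, ∀ N : ℕ, N0 ≤ N → ∃ A : Finset ℕ, A ⊆ Finset.Icc 1 N ∧ Free a A ∧
      (N : ℝ) ^ c ≤ A.card := by
  have hmR : (1 : ℝ) < m := by exact_mod_cast (by omega : 1 < m)
  have hmpos : (0 : ℝ) < m := by linarith
  have hmZ : (0 : ℤ) < (m : ℤ) := by exact_mod_cast (by omega : 0 < m)
  have hlogm : 0 < Real.log m := Real.log_pos hmR
  have hkpos : (0 : ℝ) < k := by
    rcases Nat.eq_zero_or_pos k with hk | hk
    · subst hk
      simp only [Nat.cast_zero, Real.log_zero] at hc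
      have := mul_nonneg hc0 hlogm.le
      linarith
    · exact_mod_cast hk
  -- a bound for the potential
  obtain ⟨M, hM⟩ : ∃ M : ℕ, ∀ x, |f x| ≤ M := by
    refine ⟨(∑ x, |f x|).toNat, fun x => ?_⟩
    rw [Int.toNat_of_nonneg (Finset.sum_nonneg (fun _ _ => abs_nonneg _))]
    exact Finset.single_le_sum (f := fun x => |f x|) (fun _ _ => abs_nonneg _) (Finset.mem_univ x)
  -- `mc = m ^ c`
  set mc : ℝ := (m : ℝ) ^ c with hmc
  have hmcpos : 0 < mc := Real.rpow_pos_of_pos hmpos c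
  have hmck : mc < k := by
    rw [hmc, ← Real.log_lt_log_iff hmcpos hkpos, Real.log_rpow hmpos]
    exact hc
  set ρ : ℝ := k / mc with hρ
  have hρ1 : 1 < ρ := by rw [hρ, one_lt_div hmcpos]; exact hmck
  have hkρ : (k : ℝ) = ρ * mc := by rw [hρ]; field_simp
  -- choose the number of levels
  set S : ℕ := (∑ j, |a j|).toNat + 2 with hS
  set p : ℕ := ⌈c⌉₊ with hp
  obtain ⟨L0, hL0⟩ := eventually_poly_le_pow ((S : ℝ) ^ p * 2) p hρ1
  set L : ℕ := L0 + 1 with hL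
  have hLpos : 0 < L := by omega
  have hLR : (1 : ℝ) ≤ L := by exact_mod_cast hLpos
  have hSR : (1 : ℝ) ≤ S := by
    have : 1 ≤ S := by omega
    exact_mod_cast this
  have hLbound : ((S : ℝ) * L) ^ p < ρ ^ L := by
    have h1 := hL0 L (by omega)
    have h2 : 0 < ((S : ℝ) * L) ^ p := by positivity
    have h3 : (S : ℝ) ^ p * 2 * (L : ℝ) ^ p = 2 * ((S : ℝ) * L) ^ p := by rw [mul_pow]; ring
    rw [h3] at h1
    linarith
  -- the base
  set B : ℕ := (base a m L).toNat with hB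
  have hbpos : 0 < base a m L := base_pos a hmZ L
  have hBZ : (B : ℤ) = base a m L := Int.toNat_of_nonneg hbpos.le
  have hLm : 1 ≤ L * m ^ L := Nat.mul_pos hLpos (Nat.pow_pos (by omega))
  have hBle : B ≤ S * L * m ^ L := by
    have : (B : ℤ) ≤ ((S * L * m ^ L : ℕ) : ℤ) := by
      rw [hBZ]
      unfold base
      have hSZ : (S : ℤ) = (∑ j, |a j|) + 2 := by
        rw [hS]; push_cast
        rw [Int.toNat_of_nonneg (sumabs_nonneg a)]
      push_cast
      rw [hSZ]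
      have h1 : (1 : ℤ) ≤ (L : ℤ) * (m : ℤ) ^ L := by exact_mod_cast hLm
      nlinarith
    exact_mod_cast this
  have hB2 : 2 ≤ B := by
    have : (2 : ℤ) ≤ (B : ℤ) := by
      rw [hBZ]; unfold base
      have h1 : (1 : ℤ) ≤ (L : ℤ) * (m : ℤ) ^ L := by exact_mod_cast hLm
      have h2 := mul_nonneg (sumabs_nonneg a) (show (0 : ℤ) ≤ (L : ℤ) * (m : ℤ) ^ L by linarith)
      linarith
    exact_mod_cast this
  have hBR : (1 : ℝ) < B := by exact_mod_cast (by omega : 1 < B)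
  have hBRpos : (0 : ℝ) < B := by linarith
  set bc : ℝ := (B : ℝ) ^ c with hbc
  have hbcpos : 0 < bc := Real.rpow_pos_of_pos hBRpos c
  have hbck : bc < (k : ℝ) ^ L := by
    have h1 : (B : ℝ) ≤ ((S : ℝ) * L) * (m : ℝ) ^ L := by exact_mod_cast hBle
    have hSL : (1 : ℝ) ≤ (S : ℝ) * L := by nlinarith
    calc bc ≤ (((S : ℝ) * L) * (m : ℝ) ^ L) ^ c := Real.rpow_le_rpow hBRpos.le h1 hc0
      _ = ((S : ℝ) * L) ^ c * ((m : ℝ) ^ L) ^ c :=
          Real.mul_rpow (by positivity) (by positivity)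
      _ = ((S : ℝ) * L) ^ c * mc ^ L := by
          congr 1
          rw [hmc, ← Real.rpow_natCast, ← Real.rpow_natCast, ← Real.rpow_mul hmpos.le,
            ← Real.rpow_mul hmpos.le, mul_comm]
      _ ≤ ((S : ℝ) * L) ^ p * mc ^ L := by
          refine mul_le_mul_of_nonneg_right ?_ (by positivity)
          rw [← Real.rpow_natCast]
          exact Real.rpow_le_rpow_of_exponent_le hSL (Nat.le_ceil c)
      _ < ρ ^ L * mc ^ L := mul_lt_mul_of_pos_right hLbound (by positivity)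
      _ = (k : ℝ) ^ L := by rw [← mul_pow, ← hkρ]
  set θ : ℝ := (k : ℝ) ^ L / bc with hθ
  have hθ1 : 1 < θ := by rw [hθ, one_lt_div hbcpos]; exact hbck
  have hkθ : (k : ℝ) ^ L = θ * bc := by rw [hθ]; field_simp
  obtain ⟨n0, hn0⟩ := eventually_poly_le_pow (bc * (2 * M + 1) ^ L) L hθ1
  refine ⟨B ^ (n0 + 1), fun N hN => ?_⟩
  set n : ℕ := Nat.log B N with hn
  have hNpos : N ≠ 0 := by
    have : 0 < B ^ (n0 + 1) := Nat.pow_pos (by omega)
    omega
  have hnn0 : n0 + 1 ≤ n := Nat.le_log_of_pow_le (by omega) hN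
  have hBn : B ^ n ≤ N := Nat.pow_log_le_self B hNpos
  have hNB : N < B ^ (n + 1) := Nat.lt_pow_succ_log_self (by omega) N
  obtain ⟨A, hA1, hA2, hA3⟩ := exists_free hr ha hmZ hd hsep hM L n
  refine ⟨A, ?_, hA2, ?_⟩
  · refine hA1.trans (Finset.Icc_subset_Icc_right ?_)
    exact hBn
  · have hQ : (0 : ℝ) < (2 * M * n + 1) ^ L := by positivity
    have h1 : ((k : ℝ) ^ L) ^ n ≤ A.card * (2 * M * n + 1) ^ L := by
      have : ((k ^ (n * L) : ℕ) : ℝ) ≤ ((A.card * (2 * M * n + 1) ^ L : ℕ) : ℝ) := by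
        exact_mod_cast hA3
      push_cast at this
      rw [← pow_mul, mul_comm L n]
      exact this
    have h2 : (N : ℝ) ^ c ≤ bc ^ n * bc := by
      have h3 : (N : ℝ) ≤ (B : ℝ) ^ (n + 1) := by exact_mod_cast hNB.le
      calc (N : ℝ) ^ c ≤ ((B : ℝ) ^ (n + 1)) ^ c := Real.rpow_le_rpow (by positivity) h3 hc0
        _ = bc ^ (n + 1) := by
            rw [hbc, ← Real.rpow_natCast, ← Real.rpow_natCast, ← Real.rpow_mul hBRpos.le,
              ← Real.rpow_mul hBRpos.le, mul_comm]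
        _ = bc ^ n * bc := pow_succ _ _
    have h4 : bc * (2 * M + 1) ^ L * (n : ℝ) ^ L ≤ θ ^ n := hn0 n (by omega)
    have h5 : ((2 : ℝ) * M * n + 1) ^ L ≤ (2 * M + 1) ^ L * (n : ℝ) ^ L := by
      rw [← mul_pow]
      refine pow_le_pow_left₀ (by positivity) ?_ L
      have : (1 : ℝ) ≤ n := by exact_mod_cast (by omega : 1 ≤ n)
      nlinarith
    have h6 : (N : ℝ) ^ c * (2 * M * n + 1) ^ L ≤ A.card * (2 * M * n + 1) ^ L := by
      calc (N : ℝ) ^ c * (2 * M * n + 1) ^ L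
          ≤ (bc ^ n * bc) * ((2 * M + 1) ^ L * (n : ℝ) ^ L) :=
            mul_le_mul h2 h5 hQ.le (by positivity)
        _ = (bc * (2 * M + 1) ^ L * (n : ℝ) ^ L) * bc ^ n := by ring
        _ ≤ θ ^ n * bc ^ n := mul_le_mul_of_nonneg_right h4 (by positivity)
        _ = ((k : ℝ) ^ L) ^ n := by rw [← mul_pow, ← hkθ]
        _ ≤ A.card * (2 * M * n + 1) ^ L := h1
    exact le_of_mul_le_mul_right h6 hQ

end Pool.Agent.LinEqSep
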